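import Pool.Agent.TH577.UA.Final
set_option autoImplicit false

/-!
Monomial charts in which a polynomial is a product of a monomial and of a function without zeros.
-/

namespace Pool.Agent.K7.H1.AH

open Pool.Agent.TH577.UA (mmon mmon_add mmon_zero_ne mmon_zero_eq contDiff_mmon)

variable {d : ℕ}

/-- the coordinates -/
def crd (y : (Fin d → ℂ) × ℂ) : Fin (d + 1) → ℂ := Fin.cons y.2 y.1

theorem mmon_eq (μ : Fin (d + 1) → ℕ) (y : (Fin d → ℂ) × ℂ) :
    mmon μ y = ∏ i, crd y i ^ μ i := by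
  rw [Fin.prod_univ_succ]
  rfl

/-- the chart `t_i = ∏_j y_j ^ A_ij` -/
noncomputable def ch (A : Fin (d + 1) → Fin (d + 1) → ℕ) (y : (Fin d → ℂ) × ℂ) :
    (Fin d → ℂ) × ℂ :=
  (fun k => mmon (A k.succ) y, mmon (A 0) y)

variable {A : Fin (d + 1) → Fin (d + 1) → ℕ}

theorem crd_ch (y : (Fin d → ℂ) × ℂ) (i : Fin (d + 1)) : crd (ch A y) i = mmon (A i) y := by
  refine Fin.cases ?_ (fun k => ?_) i
  · rfl
  · rfl

theorem mmon_ch (μ : Fin (d + 1) → ℕ) (y : (Fin d → ℂ) × ℂ) :
    mmon μ (ch A y) = mmon (fun j => ∑ i, μ i * A i j) y := by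
  rw [mmon_eq, mmon_eq]
  simp only [crd_ch, mmon_eq, ← Finset.prod_pow]
  rw [Finset.prod_comm]
  refine Finset.prod_congr rfl fun j _ => ?_
  rw [← Finset.prod_pow_eq_pow_sum]
  refine Finset.prod_congr rfl fun i _ => ?_
  rw [← pow_mul, mul_comm]

theorem ch_zero (hA : ∀ i j, A i j ≠ 0) : ch A (0 : (Fin d → ℂ) × ℂ) = 0 := by
  have h : ∀ i : Fin (d + 1), mmon (A i) 0 = 0 := fun i => mmon_zero_ne ⟨0, hA i 0⟩
  unfold ch
  simp only [h]
  rfl

theorem contDiff_ch : ContDiff ℂ 2 (ch A) :=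
  (contDiff_pi.2 fun _ => contDiff_mmon _).prodMk (contDiff_mmon _)

/-- the weight of a monomial -/
def wg (M : ℕ) (β : Fin (d + 1) → ℕ) : ℕ := ∑ i : Fin (d + 1), β i * M ^ (i : ℕ)

theorem wg_inj {M : ℕ} {β γ : Fin (d + 1) → ℕ} (hβ : ∀ i, β i < M) (hγ : ∀ i, γ i < M)
    (h : wg M β = wg M γ) : β = γ := by
  have h1 : finFunctionFinEquiv (fun i => (⟨β i, hβ i⟩ : Fin M)) =
      finFunctionFinEquiv fun i => (⟨γ i, hγ i⟩ : Fin M) := by
    apply Fin.ext
    rw [finFunctionFinEquiv_apply, finFunctionFinEquiv_apply]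
    exact h
  have h2 := finFunctionFinEquiv.injective h1
  funext i
  exact congrArg Fin.val (congrFun h2 i)

/-- the exponents of the chart -/
def ax (M : ℕ) (i j : Fin (d + 1)) : ℕ := M * M ^ (i : ℕ) + if i = j then 1 else 0

theorem ax_ne {M : ℕ} (hM : 0 < M) (i j : Fin (d + 1)) : ax M i j ≠ 0 := by
  unfold ax
  have : 0 < M * M ^ (i : ℕ) := by positivity
  omega

theorem sum_ax (M : ℕ) (β : Fin (d + 1) → ℕ) (j : Fin (d + 1)) :
    ∑ i, β i * ax M i j = M * wg M β + β j := by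
  unfold ax wg
  simp only [mul_add, Finset.sum_add_distrib, Finset.mul_sum]
  congr 1
  · exact Finset.sum_congr rfl fun i _ => by ring
  · simp

theorem det_ax (M : ℕ) : (Matrix.of fun i j : Fin (d + 1) => (ax M i j : ℝ)).det ≠ 0 := by
  have h : (Matrix.of fun i j : Fin (d + 1) => (ax M i j : ℝ)) =
      1 + Matrix.replicateCol Unit (fun i : Fin (d + 1) => ((M * M ^ (i : ℕ) : ℕ) : ℝ)) *
        Matrix.replicateRow Unit (fun _ : Fin (d + 1) => (1 : ℝ)) := by
    ext i j
    rw [Matrix.of_apply, Matrix.add_apply, Matrix.mul_apply, Matrix.one_apply]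
    unfold ax
    simp only [Finset.univ_unique, Finset.sum_singleton, Matrix.replicateCol_apply,
      Matrix.replicateRow_apply, mul_one]
    split_ifs
    · push_cast
      ring
    · push_cast
      ring
  rw [h, Matrix.det_one_add_replicateCol_mul_replicateRow]
  have h1 : 0 ≤ (fun _ : Fin (d + 1) => (1 : ℝ)) ⬝ᵥ
      fun i : Fin (d + 1) => ((M * M ^ (i : ℕ) : ℕ) : ℝ) := by
    unfold dotProduct
    exact Finset.sum_nonneg fun i _ => by positivity
  linarith

/-- A nonzero polynomial is the product of a monomial and of a function without zeros in a suitable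
chart. -/
theorem exists_chart {G : MvPolynomial (Fin (d + 1)) ℂ} (hG : G ≠ 0) :
    ∃ (A : Fin (d + 1) → Fin (d + 1) → ℕ) (β : Fin (d + 1) → ℕ) (H : (Fin d → ℂ) × ℂ → ℂ),
      (∀ i j, A i j ≠ 0) ∧ (Matrix.of fun i j => (A i j : ℝ)).det ≠ 0 ∧ ContDiff ℂ 2 H ∧
      H 0 ≠ 0 ∧ ∀ y, MvPolynomial.eval (crd (ch A y)) G = mmon β y * H y := by
  classical
  set M : ℕ := G.totalDegree + 1 with hM
  have hM0 : 0 < M := Nat.succ_pos _
  obtain ⟨β0, hβ0, hmin⟩ := Finset.exists_min_image G.support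
    (fun β => wg M (β : Fin (d + 1) → ℕ)) (MvPolynomial.support_nonempty.2 hG)
  have hlt : ∀ β ∈ G.support, ∀ i, β i < M := by
    intro β hβ i
    have h1 : β i ≤ β.sum fun _ e => e := by
      by_cases h : i ∈ β.support
      · exact Finset.single_le_sum (f := fun i => β i) (fun _ _ => Nat.zero_le _) h
      · rw [Finsupp.notMem_support_iff.1 h]
        exact Nat.zero_le _
    exact Nat.lt_succ_of_le (h1.trans (MvPolynomial.le_totalDegree hβ))
  have hstrict : ∀ β ∈ G.support, β ≠ β0 → wg M (β0 : Fin (d + 1) → ℕ) < wg M β := by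
    intro β hβ hne
    refine lt_of_le_of_ne (hmin β hβ) fun h => hne ?_
    exact DFunLike.coe_injective (wg_inj (hlt β0 hβ0) (hlt β hβ) h).symm
  set ex : (Fin (d + 1) → ℕ) → Fin (d + 1) → ℕ := fun β j => M * wg M β + β j with hex
  have hle : ∀ β ∈ G.support, β ≠ β0 → ∀ j, ex β0 j < ex β j := by
    intro β hβ hne j
    have h1 := hstrict β hβ hne
    have h2 := hlt β0 hβ0 j
    simp only [hex]
    have h3 : M * wg M (β0 : Fin (d + 1) → ℕ) + M ≤ M * wg M β := by
      rw [← Nat.mul_succ]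
      exact Nat.mul_le_mul_left _ h1
    omega
  refine ⟨ax M, ex β0, fun y => ∑ β ∈ G.support, G.coeff β * mmon (fun j => ex β j - ex β0 j) y,
    ax_ne hM0, det_ax M, ContDiff.sum fun β _ => contDiff_const.mul (contDiff_mmon _), ?_,
    fun y => ?_⟩
  · show ∑ β ∈ G.support, G.coeff β * mmon (fun j => ex β j - ex β0 j) 0 ≠ 0
    rw [Finset.sum_eq_single β0]
    · rw [mmon_zero_eq (fun j => Nat.sub_self _), mul_one]
      exact MvPolynomial.mem_support_iff.1 hβ0
    · intro β hβ hne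
      rw [mmon_zero_ne ⟨0, Nat.sub_ne_zero_of_lt (hle β hβ hne 0)⟩, mul_zero]
    · exact fun h => absurd hβ0 h
  · rw [MvPolynomial.eval_eq', Finset.mul_sum]
    refine Finset.sum_congr rfl fun β hβ => ?_
    have h1 : ∏ i, crd (ch (ax M) y) i ^ β i = mmon (ex β) y := by
      rw [← mmon_eq, mmon_ch]
      congr 1
      funext j
      exact sum_ax M β j
    have h2 : mmon (ex β) y = mmon (ex β0) y * mmon (fun j => ex β j - ex β0 j) y := by
      rw [← mmon_add]
      congr 1
      funext j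
      by_cases hne : β = β0
      · rw [hne, Nat.sub_self, add_zero]
      · have := hle β hβ hne j
        omega
    rw [h1, h2]
    ring

end Pool.Agent.K7.H1.AH
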