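import Pool.Agent.K7.H1.AH.Pull
import Pool.Agent.K7.H1.AH.Pts
set_option autoImplicit false

/-!
The gradient of a polynomial does not vanish at the points near a point, where the polynomial is
the product of a nonconstant monomial and of a function without zeros in a chart.
-/

namespace Pool.Agent.K7.H1.AH

open Filter Topology

open MvPolynomial

open Pool.Agent.TH577.UA (mmon)

variable {K : Type*} [Field K] {d n : ℕ} {σ : K →+* ℂ}

theorem hasDerivAt_eval₂ {x : ℂ → Fin n → ℂ} {x' : Fin n → ℂ} {τ : ℂ}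
    (hx : ∀ j, HasDerivAt (fun τ => x τ j) (x' j) τ) (p : MvPolynomial (Fin n) K) :
    HasDerivAt (fun τ => eval₂ σ (x τ) p) (∑ j, eval₂ σ (x τ) (pderiv j p) * x' j) τ := by
  classical
  induction p using MvPolynomial.induction_on with
  | C c =>
    simp only [eval₂_C, pderiv_C, eval₂_zero, zero_mul, Finset.sum_const_zero]
    exact hasDerivAt_const _ _
  | add p q hp hq =>
    simp only [eval₂_add, map_add, add_mul, Finset.sum_add_distrib]
    exact hp.add hq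
  | mul_X p k hp =>
    simp only [eval₂_mul, eval₂_X, pderiv_mul, eval₂_add, add_mul, Finset.sum_add_distrib]
    have h1 := hp.mul (hx k)
    refine h1.congr_deriv ?_
    congr 1
    · rw [Finset.sum_mul]
      exact Finset.sum_congr rfl fun j _ => by ring
    · rw [Finset.sum_eq_single k]
      · rw [pderiv_X_self, eval₂_one, mul_one]
      · intro j _ hj
        rw [pderiv_X_of_ne hj.symm, eval₂_zero, mul_zero, zero_mul]
      · exact fun h => absurd (Finset.mem_univ k) h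

theorem mmon_smul (ν : Fin (d + 1) → ℕ) (τ : ℂ) (y : (Fin d → ℂ) × ℂ) :
    mmon ν (τ • y) = τ ^ (∑ i, ν i) * mmon ν y := by
  rw [mmon_eq, mmon_eq]
  have h : ∀ i, crd (τ • y) i = τ * crd y i := by
    intro i
    refine Fin.cases ?_ (fun k => ?_) i
    · rfl
    · rfl
  simp only [h, mul_pow, Finset.prod_mul_distrib, Finset.prod_pow_eq_pow_sum]

theorem grad_ne {Q : MvPolynomial (Fin (d + 1)) K} {ν : Fin (d + 1) → ℕ}
    {Hu : (Fin d → ℂ) × ℂ → ℂ} {xc : (Fin d → ℂ) × ℂ → Fin (d + 1) → ℂ}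
    (hxc : ContDiff ℂ 2 xc) (hQ : ∀ y, eval₂ σ (xc y) Q = mmon ν y * Hu y)
    (hHc : ContDiff ℂ 2 Hu) (hν : 0 < ∑ i, ν i) {y : (Fin d → ℂ) × ℂ}
    (hy : ‖fderiv ℂ Hu y y‖ < ‖Hu y‖) (h0 : eval₂ σ (xc y) Q ≠ 0) :
    ∃ j, eval₂ σ (xc y) (pderiv j Q) ≠ 0 := by
  by_contra hcon
  push Not at hcon
  have hs : HasDerivAt (fun τ : ℂ => τ • y) y 1 := by
    have h1 := (hasDerivAt_id (1 : ℂ)).smul_const y
    simpa using h1
  have h1y : (1 : ℂ) • y = y := one_smul _ _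
  have hxd : ∀ j, HasDerivAt (fun τ : ℂ => xc (τ • y) j)
      (fderiv ℂ (fun z => xc z j) y y) 1 := by
    intro j
    have hj : ContDiff ℂ 2 fun z => xc z j := contDiff_pi.1 hxc j
    have h2 : HasFDerivAt (fun z => xc z j) (fderiv ℂ (fun z => xc z j) y) ((1 : ℂ) • y) := by
      rw [h1y]
      exact ((hj.differentiable (by norm_num)) y).hasFDerivAt
    exact h2.comp_hasDerivAt (1 : ℂ) hs
  have hA := hasDerivAt_eval₂ (σ := σ) hxd Q
  rw [h1y] at hA
  simp only [hcon, zero_mul, Finset.sum_const_zero] at hA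
  have hHd : HasDerivAt (fun τ : ℂ => Hu (τ • y)) (fderiv ℂ Hu y y) 1 := by
    have h2 : HasFDerivAt Hu (fderiv ℂ Hu y) ((1 : ℂ) • y) := by
      rw [h1y]
      exact ((hHc.differentiable (by norm_num)) y).hasFDerivAt
    exact h2.comp_hasDerivAt (1 : ℂ) hs
  have hB := ((hasDerivAt_pow (∑ i, ν i) (1 : ℂ)).mul_const (mmon ν y)).mul hHd
  have hfun : (fun τ : ℂ => eval₂ σ (xc (τ • y)) Q) =
      fun τ => τ ^ (∑ i, ν i) * mmon ν y * Hu (τ • y) := by
    funext τ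
    rw [hQ, mmon_smul]
  rw [hfun] at hA
  have hu := hA.unique hB
  rw [h1y, one_pow, one_pow, one_mul, mul_one] at hu
  rw [hQ] at h0
  have hm : mmon ν y ≠ 0 := left_ne_zero_of_mul h0
  have h3 : ((∑ i, ν i : ℕ) : ℂ) * Hu y = -fderiv ℂ Hu y y := by
    have h4 : mmon ν y * (((∑ i, ν i : ℕ) : ℂ) * Hu y + fderiv ℂ Hu y y) = 0 := by
      linear_combination -hu
    have h5 := (mul_eq_zero.1 h4).resolve_left hm
    linear_combination h5
  have h6 : ‖((∑ i, ν i : ℕ) : ℂ) * Hu y‖ = ‖fderiv ℂ Hu y y‖ := by rw [h3, norm_neg]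
  rw [norm_mul, Complex.norm_natCast] at h6
  have h7 : (1 : ℝ) ≤ ((∑ i, ν i : ℕ) : ℝ) := by exact_mod_cast hν
  have h8 : ‖Hu y‖ ≤ ((∑ i, ν i : ℕ) : ℝ) * ‖Hu y‖ := le_mul_of_one_le_left (norm_nonneg _) h7
  linarith

theorem eventually_lt_norm {Hu : (Fin d → ℂ) × ℂ → ℂ} (hHc : ContDiff ℂ 2 Hu)
    (h0 : Hu 0 ≠ 0) :
    ∀ᶠ y in 𝓝 (0 : (Fin d → ℂ) × ℂ), ‖fderiv ℂ Hu y y‖ < ‖Hu y‖ := by
  have hd : Continuous (fderiv ℂ Hu) := hHc.continuous_fderiv (by norm_num)
  refine ((hd.clm_apply continuous_id).norm.continuousAt).eventually_lt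
    hHc.continuous.norm.continuousAt ?_
  simp only [id_eq, map_zero, norm_zero]
  exact norm_pos_iff.2 h0

end Pool.Agent.K7.H1.AH
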