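import Pool.Agent.K7.H1.AH.Tor
import Pool.Agent.TH577.UA.Smooth
import Pool.Agent.TH577.UA.Dom
set_option autoImplicit false

/-!
The main theorem on the hypersurfaces `λ g ∏_e L_e ^ (w_e + 1) = 1`.
-/

namespace Pool.Agent.K7.H1.AH

open scoped WithZero

open Pool.Agent.TH826.MK

open Pool.Agent.TH826.GA (cm lf ku coe_ku vtx)

open Pool.Agent.TH826.SX (det_ne_zero_near)

open Pool.Agent.TH577.UA (hi kap kap_ne Ix Distinct lead lead_same lead_other
  det_ne_zero_of_tri ARing acst apol aeqn au aent pent)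

open Pool.Agent.K7.H1.AR (Clr expo dich exists_clr lf_ne_zero card_Ix)

variable {K : Type*} [Field K] {d m : ℕ} {c : Fin (m + 1) → Fin (d + 1) → K}
  {a : Fin (m + 1) → K} {g : MvPolynomial (Fin (d + 1)) K} {w : Fin (m + 1) → ℕ}

section unr

variable {lam : K} {L : Type*} [Field L] (f : ARing lam g w c a →+* L)

theorem f_Phi : f (apol lam g w c a (MvPolynomial.C lam * (g * ∏ e, lf c a e ^ (w e + 1)))) =
    1 := by
  have h : apol lam g w c a (aeqn lam g w c a) = 0 :=
    Ideal.Quotient.eq_zero_iff_mem.2 (Ideal.subset_span rfl)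
  unfold aeqn at h
  rw [map_sub, map_one, sub_eq_zero] at h
  rw [h, map_one]

theorem symb_mem_unramified [CharZero K] {D : ℕ} (hD : Clr g c a D) {mu : K}
    (hmu : IsIntegral ℤ mu) (hlam : lam = (D : K) ^ expo m g w * mu)
    {T : Fin (d + 1) → Fin (m + 1)} (hT : (cm c T).det ≠ 0) :
    KQ.map (d + 1) f (symb (aent lam g w c a T)) ∈ Unramified L (d + 1) := by
  rw [KQ.map_symb]
  unfold Unramified
  simp only [Submodule.mem_iInf]
  intro v _
  set A : Fin (d + 1) → Lˣ := fun l => Units.map (f : ARing lam g w c a →* L)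
    (aent lam g w c a T l) with hA
  have hΦ : v (f (apol lam g w c a (MvPolynomial.C lam * (g * ∏ e, lf c a e ^ (w e + 1))))) =
      1 := by rw [f_Phi, map_one]
  rcases dich (f.comp (apol lam g w c a)) hD hmu hlam v hT A Function.injective_id
    (fun k => Units.map (f : ARing lam g w c a →* L)
      (Units.map (acst lam g w c a : K →* ARing lam g w c a) (ku (kap c T k)) *
        au lam g w c a (T k)))
    (fun e => Units.map (f : ARing lam g w c a →* L) (au lam g w c a e))
    (fun k => by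
      simp only [map_mul, Units.val_mul]
      congr 1
      show f (acst lam g w c a (ku (kap c T k) : K)) = _
      rw [coe_ku (kap_ne hT k)]
      rfl)
    (fun e => rfl)
    (fun k => by
      simp only [hA, id]
      unfold aent pent
      simp only [map_mul, map_div]
      rw [mul_div_assoc]) hΦ.ge with h | ⟨-, h⟩
  · exact h
  · exact Submodule.subset_span ⟨A, h, rfl⟩

end unr

theorem exists_tori (σ : K →+* ℂ) (hD : Distinct c a) (hg : g ≠ 0) :
    ∃ C : ℝ, 1 ≤ C ∧ ∀ lam : K, C ≤ ‖σ lam‖ →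
      ∃ Γ : Ix c a → Torus (ARing lam g w c a) d,
        (∀ T, (∀ θ x, (Γ T).e θ (acst lam g w c a x) = σ x) ∧
          ∀ θ, ∃ j, (Γ T).e θ
            (apol lam g w c a (MvPolynomial.pderiv j (aeqn lam g w c a))) ≠ 0) ∧
        (Matrix.of fun T T' : Ix c a =>
          (Γ T).reg (symb (aent lam g w c a T'.1))).det ≠ 0 := by
  classical
  have hex := fun T : Ix c a => by
    haveI : Nonempty (Ix c a) := ⟨T⟩
    exact exists_torus (g := g) (w := w) (a := a) σ T.2.2.1 hD hg
      (fun T' : Ix c a => kap c T'.1) (fun T' l => kap_ne T'.2.2.1 l) (fun T' => T'.1)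
      (fun T' => hi c T'.1)
  choose D hD0 hT using hex
  set M0 : Matrix (Ix c a) (Ix c a) ℝ := Matrix.of fun T T' =>
    D T * lead c a T.1 T'.1 (hi c T'.1) with hM0
  have hM : M0.det ≠ 0 := by
    have h1 : M0.det = (∏ T, D T) *
        (Matrix.of fun T T' : Ix c a => lead c a T.1 T'.1 (hi c T'.1)).det := by
      rw [← Matrix.det_mul_column]
      rfl
    rw [h1]
    refine mul_ne_zero (Finset.prod_ne_zero_iff.2 fun T _ => hD0 T) ?_
    refine det_ne_zero_of_tri (fun T : Ix c a => ∑ l, (T.1 l : ℕ)) _ (fun T => ?_)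
      (fun T T' h => ?_)
    · rw [Matrix.of_apply]
      exact lead_same T.2
    · rw [Matrix.of_apply] at h
      rcases lead_other T.2 T'.2 h with h1 | h1
      · exact Or.inl (Subtype.ext h1)
      · exact Or.inr h1
  obtain ⟨δ, hδ, hdet⟩ := det_ne_zero_near M0 hM
  choose Λ hΛ1 hΛ using fun T : Ix c a => hT T (δ / 2) (by linarith)
  set C : ℝ := ∑ T, |Λ T| + 2 with hC
  have hsum : 0 ≤ ∑ T, |Λ T| := Finset.sum_nonneg fun J _ => abs_nonneg _
  have hΛC : ∀ T, Λ T ≤ C := by
    intro T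
    have h1 := Finset.single_le_sum (f := fun T => |Λ T|) (fun T _ => abs_nonneg _)
      (Finset.mem_univ T)
    have h2 := le_abs_self (Λ T)
    have h3 : |Λ T| ≤ ∑ T, |Λ T| := h1
    linarith
  refine ⟨C, by linarith, fun lam hlam => ?_⟩
  choose Γ hΓ1 hΓ3 hΓ2 using fun T => hΛ T lam ((hΛC T).trans hlam)
  refine ⟨Γ, fun T => ⟨hΓ1 T, hΓ3 T⟩, ?_⟩
  have hs : -Real.log ‖σ lam‖ ≠ 0 := by
    have : 0 < Real.log ‖σ lam‖ := Real.log_pos (by linarith)
    linarith
  set s : ℝ := -Real.log ‖σ lam‖ with hsdef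
  have h1 : (Matrix.of fun T T' : Ix c a =>
      (Γ T).reg (symb (aent lam g w c a T'.1)) / s).det ≠ 0 := by
    refine hdet _ fun T T' => ?_
    rw [hM0, Matrix.of_apply, Matrix.of_apply, mul_comm]
    exact lt_of_le_of_lt (hΓ2 T T') (show δ / 2 < δ by linarith)
  have h2 : (Matrix.of fun T T' : Ix c a =>
      (Γ T).reg (symb (aent lam g w c a T'.1))) =
      s • (Matrix.of fun T T' : Ix c a =>
        (Γ T).reg (symb (aent lam g w c a T'.1)) / s) := by
    ext T T'
    rw [Matrix.smul_apply, Matrix.of_apply, Matrix.of_apply, smul_eq_mul]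
    field_simp
  rw [h2, Matrix.det_smul]
  exact mul_ne_zero (pow_ne_zero _ hs) h1

end Pool.Agent.K7.H1.AH
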