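import Pool.Agent.K7.H1.AH.Chart
import Pool.Agent.K7.H1.AR.Main
set_option autoImplicit false

/-!
A polynomial in the chart at a vertex of the arrangement.
-/

namespace Pool.Agent.K7.H1.AH

open MvPolynomial

open Pool.Agent.TH826.GA (cm lf lc xv eval_lf)

open Pool.Agent.TH577.UA (mmon mmon_add mmon_zero_ne mmon_zero_eq contDiff_mmon stp psi
  psi_apply Distinct)

variable {K : Type*} [Field K] {d m : ℕ} {c : Fin (m + 1) → Fin (d + 1) → K}
  {a : Fin (m + 1) → K}

/-- the coordinates in the chart, as polynomials -/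
noncomputable def Xp (σ : K →+* ℂ) (c : Fin (m + 1) → Fin (d + 1) → K) (a : Fin (m + 1) → K)
    (T : Fin (d + 1) → Fin (m + 1)) (j : Fin (d + 1)) : MvPolynomial (Fin (d + 1)) ℂ :=
  ∑ i, C (σ ((cm c T)⁻¹ j i)) * (∏ k, X k ^ stp i k + C (σ (a (T i))))

theorem eval_Xp (σ : K →+* ℂ) (T : Fin (d + 1) → Fin (m + 1)) (y : (Fin d → ℂ) × ℂ)
    (j : Fin (d + 1)) : eval (crd y) (Xp σ c a T j) = xv σ c a T (psi y) j := by
  unfold Xp xv
  rw [map_sum]
  refine Finset.sum_congr rfl fun i _ => ?_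
  rw [map_mul, map_add, eval_C, eval_C, map_prod, psi_apply, mmon_eq]
  simp only [map_pow, eval_X]

/-- the polynomial in the chart -/
noncomputable def Gp (σ : K →+* ℂ) (c : Fin (m + 1) → Fin (d + 1) → K) (a : Fin (m + 1) → K)
    (T : Fin (d + 1) → Fin (m + 1)) (g : MvPolynomial (Fin (d + 1)) K) :
    MvPolynomial (Fin (d + 1)) ℂ :=
  eval₂ (C.comp σ) (Xp σ c a T) g

theorem eval_Gp (σ : K →+* ℂ) (T : Fin (d + 1) → Fin (m + 1))
    (g : MvPolynomial (Fin (d + 1)) K) (y : (Fin d → ℂ) × ℂ) :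
    eval (crd y) (Gp σ c a T g) = eval₂ σ (xv σ c a T (psi y)) g := by
  unfold Gp
  rw [eval₂_comp_left]
  have h1 : (eval (crd y)).comp (C.comp σ) = σ := by
    ext x
    simp
  have h2 : (eval (crd y)) ∘ (Xp σ c a T) = xv σ c a T (psi y) := by
    funext j
    rw [Function.comp_apply]
    exact eval_Xp (c := c) (a := a) σ T y j
  rw [h1, h2]

theorem exists_psi (u : Fin (d + 1) → ℂ) (hu : ∀ i, u i ≠ 0) :
    ∃ y : (Fin d → ℂ) × ℂ, ∀ i, mmon (stp i) y = u i := by
  classical
  set s : Fin (d + 1) → ℂ := Fin.snoc (fun k : Fin d => u k.castSucc / u k.succ)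
    (u (Fin.last d)) with hs
  refine ⟨(fun k => s k.succ, s 0), fun i => ?_⟩
  have hc : crd ((fun k : Fin d => s k.succ), s 0) = s := by
    funext i
    refine Fin.cases ?_ (fun k => ?_) i
    · rfl
    · rfl
  rw [mmon_eq, hc]
  induction i using Fin.reverseInduction with
  | last =>
    rw [Finset.prod_eq_single (Fin.last d)]
    · unfold stp
      rw [if_pos le_rfl, pow_one, hs, Fin.snoc_last]
    · intro k _ hk
      unfold stp
      rw [if_neg, pow_zero]
      intro h
      exact hk (le_antisymm (Fin.le_last k) h)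
    · exact fun h => absurd (Finset.mem_univ _) h
  | cast i ih =>
    have h1 : ∀ k, s k ^ stp i.castSucc k = s k ^ stp i.succ k *
        (if k = i.castSucc then s i.castSucc else 1) := by
      intro k
      unfold stp
      by_cases h : k = i.castSucc
      · rw [if_pos h, h, if_pos le_rfl, if_neg (not_le.2 (Fin.castSucc_lt_succ)), pow_one,
          pow_zero, one_mul]
      · rw [if_neg h, mul_one]
        congr 1
        refine if_congr ?_ rfl rfl
        have h' : (k : ℕ) ≠ i := fun e => h (Fin.ext e)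
        rw [Fin.le_def, Fin.le_def, Fin.val_succ, Fin.val_castSucc]
        omega
    simp only [h1]
    rw [Finset.prod_mul_distrib, ih, Finset.prod_ite_eq' Finset.univ i.castSucc,
      if_pos (Finset.mem_univ _), hs, Fin.snoc_castSucc, mul_div_cancel₀ _ (hu _)]

theorem xv_psi (σ : K →+* ℂ) {T : Fin (d + 1) → Fin (m + 1)} (hT : (cm c T).det ≠ 0)
    {x : Fin (d + 1) → ℂ} {y : (Fin d → ℂ) × ℂ}
    (hy : ∀ i, mmon (stp i) y = lc σ c a x (T i)) : xv σ c a T (psi y) = x := by
  classical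
  funext j
  unfold xv
  simp only [psi_apply, hy]
  unfold lc
  simp only [sub_add_cancel, Finset.mul_sum]
  rw [Finset.sum_comm]
  have h : ∀ k, ∑ i, σ ((cm c T)⁻¹ j i) * (σ (c (T i) k) * x k) =
      σ ((1 : Matrix (Fin (d + 1)) (Fin (d + 1)) K) j k) * x k := by
    intro k
    have h1 := congrFun (congrFun (Matrix.nonsing_inv_mul (cm c T)
      (isUnit_iff_ne_zero.2 hT)) j) k
    rw [← h1, Matrix.mul_apply, map_sum, Finset.sum_mul]
    refine Finset.sum_congr rfl fun i _ => ?_
    rw [map_mul, mul_assoc]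
    rfl
  simp only [h]
  rw [Finset.sum_eq_single j]
  · rw [Matrix.one_apply_eq, map_one, one_mul]
  · intro k _ hk
    rw [Matrix.one_apply_ne hk.symm, map_zero, zero_mul]
  · exact fun h => absurd (Finset.mem_univ _) h

theorem Gp_ne_zero (σ : K →+* ℂ) {T : Fin (d + 1) → Fin (m + 1)} (hT : (cm c T).det ≠ 0)
    (hD : Distinct c a) {g : MvPolynomial (Fin (d + 1)) K} (hg : g ≠ 0) :
    Gp σ c a T g ≠ 0 := by
  intro h
  have hP : map σ g * ∏ l, map σ (lf c a (T l)) = 0 := by
    apply MvPolynomial.funext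
    intro x
    rw [map_mul, map_prod, map_zero]
    by_cases hx : ∃ l, lc σ c a x (T l) = 0
    · obtain ⟨l, hl⟩ := hx
      rw [Finset.prod_eq_zero (Finset.mem_univ l), mul_zero]
      rw [eval_map, eval_lf, hl]
    · push Not at hx
      obtain ⟨y, hy⟩ := exists_psi (fun i => lc σ c a x (T i)) hx
      rw [eval_map, ← xv_psi (a := a) σ hT hy, ← eval_Gp, h, map_zero, zero_mul]
  have h0 : ∀ p : MvPolynomial (Fin (d + 1)) K, map σ p = 0 → p = 0 := fun p hp =>
    map_injective σ σ.injective (hp.trans (map_zero (map σ)).symm)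
  rcases mul_eq_zero.1 hP with h1 | h1
  · exact hg (h0 g h1)
  · obtain ⟨l, -, hl⟩ := Finset.prod_eq_zero_iff.1 h1
    exact AR.lf_ne_zero hD ⟨T, hT⟩ (T l) (h0 _ hl)

end Pool.Agent.K7.H1.AH
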