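import Pool.Agent.K7.H1.AH.Grad
set_option autoImplicit false

/-!
Tori in the complex points of the hypersurfaces `λ g ∏_e L_e ^ (w_e + 1) = 1` near the vertices of
the arrangement, for arbitrary polynomials `g ≠ 0`.
-/

namespace Pool.Agent.K7.H1.AH

open Pool.Agent.TH826.MK

open Pool.Agent.TH826.GA (cm lf lc xv eval_lf contDiff_xv ku coe_ku al be be_T)

open Pool.Agent.TH826.SX (pairing_close)

open Pool.Agent.TH577.UA (mmon mmon_add mmon_zero_ne mmon_zero_eq contDiff_mmon stp psi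
  psi_apply psi_zero contDiff_psi Distinct mu top_T exists_fac mrow yrow lead
  det_yrow PtA ARing acst apol aeqn au pent mkA mkA_au evA_acst evA_apol)

variable {K : Type*} [Field K] {d m : ℕ} {c : Fin (m + 1) → Fin (d + 1) → K}
  {a : Fin (m + 1) → K} {g : MvPolynomial (Fin (d + 1)) K} {w : Fin (m + 1) → ℕ}

/-- the exponents of the forms in the chart -/
noncomputable def muA (A : Fin (d + 1) → Fin (d + 1) → ℕ) (c : Fin (m + 1) → Fin (d + 1) → K)
    (a : Fin (m + 1) → K) (T : Fin (d + 1) → Fin (m + 1)) (e : Fin (m + 1)) :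
    Fin (d + 1) → ℕ := fun j => ∑ i, mu c a T e i * A i j

theorem leadA_eq (A : Fin (d + 1) → Fin (d + 1) → ℕ) (r : ℕ) (N : Fin d → ℕ)
    (T p q : Fin (d + 1) → Fin (m + 1)) :
    (Matrix.of fun l j => mrow r N (muA A c a T (p l)) j - mrow r N (muA A c a T (q l)) j).det =
      lead c a T p q * ((Matrix.of fun i j => (A i j : ℝ)).det * (Matrix.of (yrow r N)).det) := by
  have h : (Matrix.of fun l j => mrow r N (muA A c a T (p l)) j -
      mrow r N (muA A c a T (q l)) j) =
      (Matrix.of fun l j => (mu c a T (p l) j : ℝ) - mu c a T (q l) j) *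
        ((Matrix.of fun i j => (A i j : ℝ)) * Matrix.of (yrow r N)) := by
    rw [← Matrix.mul_assoc]
    ext l j
    rw [Matrix.mul_apply]
    simp only [Matrix.of_apply]
    unfold mrow
    rw [← Finset.sum_sub_distrib]
    refine Finset.sum_congr rfl fun i _ => ?_
    rw [← sub_mul, Matrix.mul_apply]
    congr 1
    unfold muA
    simp only [Matrix.of_apply]
    push_cast
    rw [← Finset.sum_sub_distrib]
    exact Finset.sum_congr rfl fun k _ => by ring
  rw [h, Matrix.det_mul, Matrix.det_mul]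
  rfl

theorem exists_torus (σ : K →+* ℂ) {T : Fin (d + 1) → Fin (m + 1)} (hT : (cm c T).det ≠ 0)
    (hD : Distinct c a) (hg : g ≠ 0)
    {I : Type*} [Fintype I] [Nonempty I] (κ : I → Fin (d + 1) → K) (hκ : ∀ i l, κ i l ≠ 0)
    (p q : I → Fin (d + 1) → Fin (m + 1)) :
    ∃ D : ℝ, D ≠ 0 ∧ ∀ ε : ℝ, 0 < ε →
    ∃ Λ : ℝ, 1 < Λ ∧ ∀ lam : K, Λ ≤ ‖σ lam‖ → ∃ Γ : Torus (ARing lam g w c a) d,
      (∀ θ x, Γ.e θ (acst lam g w c a x) = σ x) ∧
      (∀ θ, ∃ j, Γ.e θ (apol lam g w c a (MvPolynomial.pderiv j (aeqn lam g w c a))) ≠ 0) ∧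
      ∀ i, |Γ.reg (symb (pent lam g w c a (κ i) (p i) (q i))) / (-Real.log ‖σ lam‖) -
          lead c a T (p i) (q i) * D| ≤ ε := by
  classical
  -- the chart
  choose h hfac hcd hne using fun e => exists_fac (a := a) σ hT hD e
  obtain ⟨A, β, H, hA, hAdet, hHc, hH0, hHe⟩ := exists_chart (Gp_ne_zero (a := a) σ hT hD hg)
  have hch0 : ch A (0 : (Fin d → ℂ) × ℂ) = 0 := ch_zero hA
  set μ : Option ((e : Fin (m + 1)) × Fin (w e + 1)) → Fin (d + 1) → ℕ :=
    fun e => Option.elim e β fun e => muA A c a T e.1 with hμ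
  set N : Fin d → ℕ := fun k => ∑ e, μ e k.succ with hN
  set r : ℕ := ∑ e, μ e 0 with hr
  have hr0 : 0 < r := by
    have h1 : μ (some ⟨T 0, 0⟩) 0 ≤ r :=
      Finset.single_le_sum (f := fun e => μ e 0) (fun _ _ => Nat.zero_le _) (Finset.mem_univ _)
    refine lt_of_lt_of_le ?_ h1
    show 0 < ∑ i, mu c a T (T 0) i * A i 0
    have h2 : mu c a T (T 0) 0 = 1 := by
      unfold mu
      rw [if_pos (be_T T hT 0), top_T hT]
      unfold stp
      rw [if_pos le_rfl]
    have h3 : mu c a T (T 0) 0 * A 0 0 ≤ ∑ i, mu c a T (T 0) i * A i 0 :=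
      Finset.single_le_sum (f := fun i => mu c a T (T 0) i * A i 0) (fun _ _ => Nat.zero_le _)
        (Finset.mem_univ _)
    rw [h2, one_mul] at h3
    have h4 := hA 0 0
    omega
  refine ⟨(2 * Real.pi) ^ d * ((Matrix.of fun i j => (A i j : ℝ)).det *
    (Matrix.of (yrow r N)).det), mul_ne_zero
    (pow_ne_zero _ (by have := Real.pi_pos; positivity)) (mul_ne_zero hAdet (det_yrow hr0 N)),
    fun ε hε => ?_⟩
  choose δ hδ hclose using fun i : I =>
    pairing_close (Matrix.of fun l j => mrow r N (muA A c a T (p i l)) j -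
      mrow r N (muA A c a T (q i l)) j) hε
  obtain ⟨i0, -, hi0⟩ := Finset.exists_min_image Finset.univ δ
    ⟨Classical.arbitrary I, Finset.mem_univ _⟩
  set δ0 : ℝ := δ i0 / 5 with hδ0
  have hδ0pos : 0 < δ0 := by
    have := hδ i0
    rw [hδ0]
    linarith
  have hδle : ∀ i, 4 * δ0 < δ i := by
    intro i
    have h1 := hi0 i (Finset.mem_univ i)
    have h2 := hδ i0
    rw [hδ0]
    linarith
  set hh : Option ((e : Fin (m + 1)) × Fin (w e + 1)) → (Fin d → ℂ) × ℂ → ℂ := fun e y =>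
    Option.elim e (H y) fun e => h e.1 (ch A y) with hhh
  have hhc : ∀ e, ContDiff ℂ 2 (hh e) := fun e => by
    cases e with
    | none => exact hHc
    | some e => exact (hcd e.1).comp contDiff_ch
  have hh0 : ∀ e, hh e 0 ≠ 0 := fun e => by
    cases e with
    | none => exact hH0
    | some e =>
      show h e.1 (ch A 0) ≠ 0
      rw [hch0]
      exact hne e.1
  set Hu : (Fin d → ℂ) × ℂ → ℂ := fun y => ∏ e, hh e y with hHu
  have hHuc : ContDiff ℂ 2 Hu := contDiff_prod fun e _ => hhc e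
  have hHu0 : Hu 0 ≠ 0 := Finset.prod_ne_zero_iff.2 fun e _ => hh0 e
  have hnone : ∀ y, MvPolynomial.eval₂ σ (xv σ c a T (psi (ch A y))) g =
      mmon (μ none) y * hh none y := fun y => by
    show MvPolynomial.eval₂ σ (xv σ c a T (psi (ch A y))) g = mmon β y * H y
    rw [← eval_Gp, hHe]
  have hsome : ∀ e y, lc σ c a (xv σ c a T (psi (ch A y))) e.1 =
      mmon (μ (some e)) y * hh (some e) y := fun e y => by
    show lc σ c a (xv σ c a T (psi (ch A y))) e.1 = mmon (muA A c a T e.1) y * h e.1 (ch A y)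
    rw [hfac, mmon_ch]
    rfl
  obtain ⟨η0, hη0, hX⟩ := exists_points' (q := r) (N := N)
    (H := fun (e : Option ((e : Fin (m + 1)) × Fin (w e + 1))) y => Option.elim e
      (MvPolynomial.eval₂ σ (xv σ c a T (psi (ch A y))) g)
      fun e => lc σ c a (xv σ c a T (psi (ch A y))) e.1)
    (h := hh)
    (μ := μ)
    (fun e y => by
      cases e with
      | none => exact hnone y
      | some e => exact hsome e y)
    hhc hh0
    rfl hr0 (fun k => rfl) hδ0pos (eventually_lt_norm hHuc hHu0)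
  set G : ℝ := ∑ i : I, ∑ l, |Real.log ‖σ (κ i l)‖| with hG
  have hG0 : 0 ≤ G := Finset.sum_nonneg fun S _ => Finset.sum_nonneg fun i _ => abs_nonneg _
  have hGS : ∀ i l, |Real.log ‖σ (κ i l)‖| ≤ G := fun i l =>
    (Finset.single_le_sum (f := fun l => |Real.log ‖σ (κ i l)‖|)
      (fun i _ => abs_nonneg _) (Finset.mem_univ l)).trans
    (Finset.single_le_sum (f := fun i => ∑ l, |Real.log ‖σ (κ i l)‖|)
      (fun S _ => Finset.sum_nonneg fun i _ => abs_nonneg _) (Finset.mem_univ i))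
  have hinvpos : 0 < 1 / η0 := by positivity
  refine ⟨1 / η0 + 2 + Real.exp (G / δ0), by
    have := Real.exp_pos (G / δ0)
    linarith, fun lam hlam => ?_⟩
  have hexp := Real.exp_pos (G / δ0)
  have hln : 0 < ‖σ lam‖ := by linarith
  have hl0 : σ lam ≠ 0 := norm_pos_iff.1 hln
  have hη : ‖(σ lam)⁻¹‖ < η0 := by
    rw [norm_inv, inv_lt_comm₀ hln hη0, ← one_div]
    linarith
  obtain ⟨hlog, U, hUc, hUp, hUe, hUP, hUg, hUest⟩ := hX _ (inv_ne_zero hl0) hη
  have hlogeq : Real.log ‖(σ lam)⁻¹‖ = -Real.log ‖σ lam‖ := by rw [norm_inv, Real.log_inv]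
  rw [hlogeq] at hlog hUest
  have hbig : G ≤ δ0 * |(-Real.log ‖σ lam‖)| := by
    have h1 : G / δ0 ≤ Real.log ‖σ lam‖ := by
      rw [Real.le_log_iff_exp_le hln]
      linarith
    rw [div_le_iff₀ hδ0pos] at h1
    rw [abs_of_neg hlog, neg_neg]
    linarith
  set s : ℝ := -Real.log ‖σ lam‖ with hs
  have hs0 : s ≠ 0 := hlog.ne
  have hspos : 0 < |s| := abs_pos.2 hs0
  have hgs : ∀ i l, |Real.log ‖σ (κ i l)‖ / s| ≤ δ0 := by
    intro i l
    rw [abs_div, div_le_iff₀ hspos]
    exact (hGS i l).trans hbig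
  set X : (Fin d → ℝ) → (Fin (d + 1) → ℂ) := fun θ => xv σ c a T (psi (ch A (U θ))) with hXdef
  have hXc : ContDiff ℝ 2 X :=
    ((((contDiff_xv σ T).comp contDiff_psi).comp contDiff_ch).restrict_scalars ℝ).comp hUc
  have hXp : ∀ θ i, X (θ + Pi.single i 1) = X θ := fun θ i => by
    simp only [hXdef, hUp]
  have hPt : ∀ θ, PtA σ lam g w c a (X θ) := fun θ => by
    have h1 := hUe θ
    rw [Fintype.prod_option] at h1
    have h3 : ∏ e : (e : Fin (m + 1)) × Fin (w e + 1), lc σ c a (X θ) e.1 =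
        ∏ e, lc σ c a (X θ) e ^ (w e + 1) := by
      rw [Fintype.prod_sigma]
      simp only [Finset.prod_const, Finset.card_univ, Fintype.card_fin]
    have h2 : MvPolynomial.eval₂ σ (X θ) g * ∏ e, lc σ c a (X θ) e ^ (w e + 1) =
        (σ lam)⁻¹ := by
      rw [← h3]
      exact h1
    unfold PtA
    rw [h2]
    exact mul_inv_cancel₀ hl0
  have hgoodL : ∀ e, Good fun θ => lc σ c a (X θ) e := fun e => hUg (some ⟨e, 0⟩)
  have hest : ∀ e θ, |Real.log ‖lc σ c a (X θ) e‖ / s - mrow r N (muA A c a T e) 0| ≤ δ0 ∧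
      ∀ j, ‖lw (fun θ => lc σ c a (X θ) e) j θ - 2 * Real.pi * Complex.I *
        mrow r N (muA A c a T e) j.succ‖ ≤ δ0 := fun e θ => hUest (some ⟨e, 0⟩) θ
  have hgr : ∀ θ, ∃ j, (mkA X hXc hXp hPt).e θ
      (apol lam g w c a (MvPolynomial.pderiv j (aeqn lam g w c a))) ≠ 0 := by
    intro θ
    have h1 : ∃ j, MvPolynomial.eval₂ σ (xv σ c a T (psi (ch A (U θ))))
        (MvPolynomial.pderiv j (g * ∏ e, lf c a e ^ (w e + 1))) ≠ 0 := by
      refine grad_ne (ν := fun j => ∑ e, μ e j) (Hu := Hu)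
        (xc := fun y => xv σ c a T (psi (ch A y)))
        (((contDiff_xv σ T).comp contDiff_psi).comp contDiff_ch) (fun y => ?_) hHuc ?_ (hUP θ) ?_
      · rw [MvPolynomial.eval₂_mul, MvPolynomial.eval₂_prod]
        simp only [MvPolynomial.eval₂_pow, eval_lf]
        have h3 : ∏ e, lc σ c a (xv σ c a T (psi (ch A y))) e ^ (w e + 1) =
            ∏ e : (e : Fin (m + 1)) × Fin (w e + 1),
              lc σ c a (xv σ c a T (psi (ch A y))) e.1 := by
          rw [Fintype.prod_sigma]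
          simp only [Finset.prod_const, Finset.card_univ, Fintype.card_fin]
        rw [h3, hnone]
        have h4 : ∀ e : (e : Fin (m + 1)) × Fin (w e + 1),
            lc σ c a (xv σ c a T (psi (ch A y))) e.1 = mmon (μ (some e)) y * hh (some e) y :=
          fun e => hsome e y
        simp only [h4]
        rw [← Fintype.prod_option (f := fun e => mmon (μ e) y * hh e y),
          Finset.prod_mul_distrib]
        congr 1
        simp only [mmon_eq, ← Finset.prod_pow_eq_pow_sum]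
        exact Finset.prod_comm
      · refine lt_of_lt_of_le hr0 ?_
        exact Finset.single_le_sum (f := fun j => ∑ e, μ e j) (fun _ _ => Nat.zero_le _)
          (Finset.mem_univ _)
      · intro h0
        have h5 := hPt θ
        unfold PtA at h5
        rw [MvPolynomial.eval₂_mul, MvPolynomial.eval₂_prod] at h0
        simp only [MvPolynomial.eval₂_pow, eval_lf] at h0
        rw [h0, mul_zero] at h5
        exact zero_ne_one h5
    obtain ⟨j, hj⟩ := h1
    refine ⟨j, ?_⟩
    have h2 : (mkA X hXc hXp hPt).e θ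
        (apol lam g w c a (MvPolynomial.pderiv j (aeqn lam g w c a))) =
        MvPolynomial.eval₂ σ (X θ) (MvPolynomial.pderiv j (aeqn lam g w c a)) :=
      evA_apol (hPt θ) _
    rw [h2]
    unfold aeqn
    rw [map_sub, MvPolynomial.pderiv_one, sub_zero, MvPolynomial.pderiv_C_mul,
      MvPolynomial.eval₂_mul, MvPolynomial.eval₂_C]
    exact mul_ne_zero hl0 hj
  refine ⟨mkA X hXc hXp hPt, fun θ x => evA_acst (hPt θ) x, hgr, fun i => ?_⟩
  have hfin : lead c a T (p i) (q i) * ((2 * Real.pi) ^ d *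
      ((Matrix.of fun i j => (A i j : ℝ)).det * (Matrix.of (yrow r N)).det)) =
      (2 * Real.pi) ^ d * (Matrix.of fun l j => mrow r N (muA A c a T (p i l)) j -
        mrow r N (muA A c a T (q i l)) j).det := by
    rw [leadA_eq]
    ring
  rw [Torus.reg_symb, hfin]
  set Γ := mkA X hXc hXp hPt with hΓ
  have hκc : ∀ l, σ (κ i l) ≠ 0 := fun l => (map_ne_zero σ).2 (hκ i l)
  have hau : ∀ e, Γ.fn (au lam g w c a e : ARing lam g w c a) = fun θ => lc σ c a (X θ) e :=
    fun e => mkA_au X hXc hXp hPt e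
  have hgoodE : ∀ l, Good (Γ.fn (pent lam g w c a (κ i) (p i) (q i) l : ARing lam g w c a)) :=
    fun l => Γ.good _
  have hmul : ∀ l : Fin (d + 1), (fun θ =>
      Γ.fn (pent lam g w c a (κ i) (p i) (q i) l : ARing lam g w c a) θ *
      lc σ c a (X θ) (q i l)) = fun θ => σ (κ i l) * lc σ c a (X θ) (p i l) := by
    intro l
    funext θ
    have h1 := congrFun (hau (q i l)) θ
    have h2 := congrFun (hau (p i l)) θ
    have h3 : Γ.fn (acst lam g w c a (ku (κ i l) : K)) θ = σ (κ i l) := by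
      rw [coe_ku (hκ i l)]
      exact evA_acst (hPt θ) _
    rw [← h1, ← h2, ← h3]
    unfold Torus.fn
    rw [← map_mul, ← map_mul]
    congr 1
    unfold pent
    rw [← Units.val_mul, mul_assoc, div_mul_cancel]
    rfl
  refine hclose i _ _ hs0 hgoodE (fun l θ => ?_) (fun l j θ => ?_)
  · change |Real.log ‖Γ.fn (pent lam g w c a (κ i) (p i) (q i) l : ARing lam g w c a) θ‖ / s -
      (mrow r N (muA A c a T (p i l)) 0 - mrow r N (muA A c a T (q i l)) 0)| < δ i
    have h1 := (hest (p i l) θ).1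
    have h2 := (hest (q i l) θ).1
    have h0 := hgs i l
    have h3 : Real.log ‖Γ.fn (pent lam g w c a (κ i) (p i) (q i) l : ARing lam g w c a) θ *
        lc σ c a (X θ) (q i l)‖ = Real.log ‖σ (κ i l) * lc σ c a (X θ) (p i l)‖ :=
      congrArg (fun z : ℂ => Real.log ‖z‖) (congrFun (hmul l) θ)
    rw [norm_mul, norm_mul, Real.log_mul (norm_ne_zero_iff.2 ((hgoodE l).ne_zero θ))
      (norm_ne_zero_iff.2 ((hgoodL _).ne_zero θ)), Real.log_mul (norm_ne_zero_iff.2 (hκc l))
      (norm_ne_zero_iff.2 ((hgoodL _).ne_zero θ))] at h3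
    have h4 : Real.log ‖Γ.fn (pent lam g w c a (κ i) (p i) (q i) l : ARing lam g w c a) θ‖ =
        Real.log ‖σ (κ i l)‖ + Real.log ‖lc σ c a (X θ) (p i l)‖ -
        Real.log ‖lc σ c a (X θ) (q i l)‖ := by
      linarith
    rw [h4, sub_div, add_div]
    refine lt_of_le_of_lt ?_ (hδle i)
    have h5 := abs_le.1 h1
    have h6 := abs_le.1 h2
    have h7 := abs_le.1 h0
    rw [abs_le]
    constructor <;> linarith [h5.1, h5.2, h6.1, h6.2, h7.1, h7.2]
  · change ‖lw (Γ.fn (pent lam g w c a (κ i) (p i) (q i) l : ARing lam g w c a)) j θ -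
      2 * Real.pi * Complex.I *
        ((mrow r N (muA A c a T (p i l)) j.succ -
          mrow r N (muA A c a T (q i l)) j.succ : ℝ) : ℂ)‖ < δ i
    have h1 := (hest (p i l) θ).2 j
    have h2 := (hest (q i l) θ).2 j
    have h3 := lw_mul (hgoodE l) (hgoodL (q i l)) j θ
    rw [hmul l] at h3
    have h5 := lw_mul (good_const (d := d) (hκc l)) (hgoodL (p i l)) j θ
    rw [lw_const, zero_add] at h5
    have h4 : lw (Γ.fn (pent lam g w c a (κ i) (p i) (q i) l : ARing lam g w c a)) j θ =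
        lw (fun θ => lc σ c a (X θ) (p i l)) j θ -
        lw (fun θ => lc σ c a (X θ) (q i l)) j θ := by
      rw [eq_sub_iff_add_eq, ← h5]
      exact h3.symm
    rw [h4]
    refine lt_of_le_of_lt ?_ (hδle i)
    have e2 : lw (fun θ => lc σ c a (X θ) (p i l)) j θ -
        lw (fun θ => lc σ c a (X θ) (q i l)) j θ - 2 * Real.pi * Complex.I *
          ((mrow r N (muA A c a T (p i l)) j.succ -
            mrow r N (muA A c a T (q i l)) j.succ : ℝ) : ℂ) =
        (lw (fun θ => lc σ c a (X θ) (p i l)) j θ -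
          2 * Real.pi * Complex.I * mrow r N (muA A c a T (p i l)) j.succ) -
        (lw (fun θ => lc σ c a (X θ) (q i l)) j θ -
          2 * Real.pi * Complex.I * mrow r N (muA A c a T (q i l)) j.succ) := by
      push_cast
      ring
    rw [e2]
    refine (norm_sub_le _ _).trans ?_
    linarith

end Pool.Agent.K7.H1.AH
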